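import Pool.Agent.H474.RZ.Stm
import Pool.Graph.R_seed8.Helper242.KK.ShiftLine

set_option autoImplicit false

/-!
RZ-REP (helper215 for helper474): the Fourier transform of `G_δ`.
-/

open Complex MeasureTheory Filter Topology
open Pool.Agent.H474.RZ

namespace Pool.Agent.H215.RZ.REP

/-- `9u/2 - κ e^{2u} ≤ B - K u²` -/
lemma real_bound {κ : ℝ} (hκ : 0 < κ) (K : ℝ) : ∃ B : ℝ, ∀ u : ℝ, 0 ≤ u →
    9 * (u / 2) - κ * Real.exp (2 * u) ≤ B - K * u ^ 2 := by
  refine ⟨9 / 4 + (K + 9 / 4) ^ 2 / (4 * (2 * κ / 3)), fun u hu => ?_⟩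
  have h1 : (2 * u) ^ 4 / (Nat.factorial 4 : ℝ) ≤ Real.exp (2 * u) :=
    Real.pow_div_factorial_le_exp (2 * u) (by positivity) 4
  have h2 : (2 / 3) * u ^ 4 ≤ Real.exp (2 * u) := by
    have : (Nat.factorial 4 : ℝ) = 24 := by norm_num [Nat.factorial]
    rw [this] at h1
    nlinarith [h1]
  have h3 : κ * ((2 / 3) * u ^ 4) ≤ κ * Real.exp (2 * u) := mul_le_mul_of_nonneg_left h2 hκ.le
  have h4 : (K + 9 / 4) * u ^ 2 ≤ κ * ((2 / 3) * u ^ 4) + (K + 9 / 4) ^ 2 / (4 * (2 * κ / 3)) := by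
    set c : ℝ := 2 * κ / 3 with hc
    have hc0 : 0 < c := by positivity
    have e1 : κ * ((2 / 3) * u ^ 4) = c * (u ^ 2) ^ 2 := by rw [hc]; ring
    rw [e1]
    have h5 : 0 ≤ (2 * c * u ^ 2 - (K + 9 / 4)) ^ 2 / (4 * c) := by positivity
    have h6 : (2 * c * u ^ 2 - (K + 9 / 4)) ^ 2 / (4 * c) =
        c * (u ^ 2) ^ 2 + (K + 9 / 4) ^ 2 / (4 * c) - (K + 9 / 4) * u ^ 2 := by
      field_simp
      ring
    linarith
  nlinarith [sq_nonneg (u - 1)]

lemma al_lt {δ : ℝ} (h : 0 < δ) : al δ < Real.pi / 4 := by unfold al; linarith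

lemma al_nonneg {δ : ℝ} (h : δ ≤ Real.pi / 4) : 0 ≤ al δ := by unfold al; linarith

lemma PhC_diff {z : ℂ} (hz : |z.im| < Real.pi / 4) : DifferentiableAt ℂ PhC z := by
  have h1 : z / 2 ∈ Pool.Agent.Helper242.RK.S := by
    have : |(z / 2).im| < Real.pi / 8 := by
      have e : (z / 2).im = z.im / 2 := by
        rw [show (2 : ℂ) = ((2 : ℝ) : ℂ) by norm_num, div_ofReal_im]
      rw [e, abs_div, abs_of_pos (by norm_num : (0 : ℝ) < 2)]
      linarith
    exact this
  have h2 := Pool.Agent.Helper242.RK.differentiableAt_PhiC h1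
  have h3 : DifferentiableAt ℂ (fun w : ℂ => Pool.Agent.Helper242.RK.PhiC (w / 2)) z :=
    DifferentiableAt.comp (g := Pool.Agent.Helper242.RK.PhiC) (f := fun w : ℂ => w / 2) z h2
      (differentiableAt_id.div_const 2)
  exact h3.const_mul 2

lemma PhC_le {δ : ℝ} (h0 : 0 < δ) (h1 : δ ≤ Real.pi / 4) :
    ∃ C : ℝ, 0 < C ∧ ∀ z : ℂ, |z.im| ≤ al δ → ‖PhC z‖ ≤ C * Real.exp (-z.re ^ 2) := by
  have hal := al_lt h0
  have hal0 := al_nonneg h1
  obtain ⟨A, hA, h⟩ := Pool.Agent.Helper242.RK.PhiC_bound (Y := al δ / 2) (by linarith) (by linarith)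
  have hcos : 0 < Real.cos (4 * (al δ / 2)) :=
    Real.cos_pos_of_mem_Ioo ⟨by linarith [Real.pi_pos], by linarith⟩
  have hκ : 0 < Real.pi * Real.cos (4 * (al δ / 2)) := by positivity
  obtain ⟨B, hB⟩ := real_bound hκ 1
  refine ⟨2 * A * Real.exp B, by positivity, fun z hz => ?_⟩
  have e1 : (z / 2).im = z.im / 2 := by
    rw [show (2 : ℂ) = ((2 : ℝ) : ℂ) by norm_num, div_ofReal_im]
  have e2 : (z / 2).re = z.re / 2 := by
    rw [show (2 : ℂ) = ((2 : ℝ) : ℂ) by norm_num, div_ofReal_re]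
  have h2 := h (z / 2) (by
    rw [e1, abs_div, abs_of_pos (by norm_num : (0 : ℝ) < 2)]
    linarith)
  rw [e2, abs_div, abs_of_pos (by norm_num : (0 : ℝ) < 2)] at h2
  have h3 := hB |z.re| (abs_nonneg _)
  have h4 : 9 * (|z.re| / 2) - Real.pi * Real.cos (4 * (al δ / 2)) * Real.exp (4 * (|z.re| / 2)) ≤
      B + -z.re ^ 2 := by
    rw [show 4 * (|z.re| / 2) = 2 * |z.re| by ring]
    rw [sq_abs] at h3
    linarith
  have h5 : ‖PhC z‖ = 2 * ‖Pool.Agent.Helper242.RK.PhiC (z / 2)‖ := by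
    show ‖2 * Pool.Agent.Helper242.RK.PhiC (z / 2)‖ = _
    rw [norm_mul]
    norm_num
  rw [h5]
  calc 2 * ‖Pool.Agent.Helper242.RK.PhiC (z / 2)‖
      ≤ 2 * (A * Real.exp (B + -z.re ^ 2)) := by
        refine mul_le_mul_of_nonneg_left (h2.trans ?_) (by norm_num)
        exact mul_le_mul_of_nonneg_left (Real.exp_le_exp.2 h4) hA.le
    _ = 2 * A * Real.exp B * Real.exp (-z.re ^ 2) := by rw [Real.exp_add]; ring

theorem t_REP : S_REP := by
  intro μ δ hμ h0 h1
  have hal := al_lt h0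
  have hal0 := al_nonneg h1
  obtain ⟨C, hC, hb⟩ := PhC_le h0 h1
  have him : ∀ t : ℝ, ((t : ℂ) + al δ * I).im = al δ := by
    intro t
    simp
  have hre : ∀ t : ℝ, ((t : ℂ) + al δ * I).re = t := by
    intro t
    simp
  refine ⟨?_, ⟨C, fun t => ?_⟩, fun x => ?_⟩
  · rw [continuous_iff_continuousAt]
    intro t
    have h2 : ContinuousAt PhC ((t : ℂ) + al δ * I) := by
      apply (PhC_diff _).continuousAt
      rw [him, abs_of_nonneg hal0]
      exact hal
    have h3 : ContinuousAt (fun t : ℝ => (t : ℂ) + al δ * I) t := by fun_prop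
    exact ContinuousAt.comp (g := PhC) (f := fun t : ℝ => (t : ℂ) + al δ * I) h2 h3
  · have h2 := hb ((t : ℂ) + al δ * I) (by rw [him, abs_of_nonneg hal0])
    rw [hre] at h2
    exact h2
  · set H : ℂ → ℂ := fun z => PhC z * cexp (-(μ : ℂ) * z ^ 2) * cexp (I * x * z) with hH
    have hd : ∀ z : ℂ, z.im ∈ Set.uIcc 0 (al δ) → DifferentiableAt ℂ H z := by
      intro z hz
      rw [Set.uIcc_of_le hal0] at hz
      have h2 : DifferentiableAt ℂ PhC z := PhC_diff (by rw [abs_of_nonneg hz.1]; linarith [hz.2])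
      exact (h2.mul (by fun_prop)).mul (by fun_prop)
    have hbd : ∀ z : ℂ, z.im ∈ Set.uIcc 0 (al δ) →
        ‖H z‖ ≤ C * Real.exp (μ * al δ ^ 2 + |x| * al δ) * Real.exp (-1 * z.re ^ 2) := by
      intro z hz
      rw [Set.uIcc_of_le hal0] at hz
      have h2 := hb z (by rw [abs_of_nonneg hz.1]; exact hz.2)
      have h3 : ‖cexp (-(μ : ℂ) * z ^ 2)‖ ≤ Real.exp (μ * al δ ^ 2) := by
        rw [Complex.norm_exp]
        refine Real.exp_le_exp.2 ?_
        have e : (-(μ : ℂ) * z ^ 2).re = -μ * (z.re ^ 2 - z.im ^ 2) := by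
          simp [pow_two]
        rw [e]
        have h4 : z.im ^ 2 ≤ al δ ^ 2 := by
          exact pow_le_pow_left₀ hz.1 hz.2 2
        nlinarith [mul_le_mul_of_nonneg_left h4 hμ, mul_nonneg hμ (sq_nonneg z.re)]
      have h5 : ‖cexp (I * x * z)‖ ≤ Real.exp (|x| * al δ) := by
        rw [Complex.norm_exp]
        refine Real.exp_le_exp.2 ?_
        have e : (I * x * z).re = -(x * z.im) := by
          simp
        rw [e]
        have h6 : -(x * z.im) ≤ |x| * z.im := by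
          nlinarith [neg_abs_le x, hz.1]
        exact h6.trans (mul_le_mul_of_nonneg_left hz.2 (abs_nonneg x))
      rw [hH]
      simp only [norm_mul]
      calc ‖PhC z‖ * ‖cexp (-(μ : ℂ) * z ^ 2)‖ * ‖cexp (I * x * z)‖
          ≤ (C * Real.exp (-z.re ^ 2)) * Real.exp (μ * al δ ^ 2) * Real.exp (|x| * al δ) := by
            gcongr
        _ = _ := by
            rw [Real.exp_add, show -1 * z.re ^ 2 = -z.re ^ 2 by ring]
            ring
    have key := Pool.Agent.Helper242.KK.shift_line (H := H) one_pos hd hbd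
    have hL : ∫ t : ℝ, H (t + (0 : ℝ) * I) = XiM μ x := by
      show _ = Pool.Agent.Helper242.KK.FT (Pool.Agent.Helper242.KK.wk μ) x
      unfold Pool.Agent.Helper242.KK.FT
      refine integral_congr_ae (Eventually.of_forall fun t => ?_)
      simp only [hH, ofReal_zero, zero_mul, add_zero]
      rw [show PhC (t : ℂ) = (Pool.Agent.Helper242.KK.Ph t : ℂ) from
        Pool.Agent.Helper242.KK.PhC_ofReal t]
      unfold Pool.Agent.Helper242.KK.wk
      push_cast
      rfl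
    rw [← hL, key, ← integral_const_mul]
    refine integral_congr_ae (Eventually.of_forall fun t => ?_)
    simp only [hH]
    have e : cexp (I * x * (t + al δ * I)) = cexp (I * x * t) * cexp (-(al δ * x : ℝ)) := by
      rw [← Complex.exp_add]
      congr 1
      push_cast
      linear_combination (x * al δ : ℂ) * I_sq
    rw [e]
    have e2 : (Real.exp (al δ * x) : ℂ) * cexp (-(al δ * x : ℝ)) = 1 := by
      rw [ofReal_exp, ← Complex.exp_add]
      simp
    linear_combination (PhC (t + al δ * I) * cexp (-(μ : ℂ) * (t + al δ * I) ^ 2) *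
      cexp (I * x * t)) * e2

end Pool.Agent.H215.RZ.REP
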